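import Pool.Agent.Helper7.KT.St

set_option autoImplicit false

namespace Pool.Agent.Helper39.KT

open Finset SimpleGraph Filter Topology
open EX Pool.Agent.Helper7.KT

open scoped Classical

theorem hRGF : StRGF := by
  intro k hk U _ G V H hF
  obtain ⟨hH, hfree⟩ := hF
  rintro ⟨f⟩
  apply hfree
  refine embed k hk H hH G (fun u => f u) f.injective ∅ (by simp) (fun _ => ∅)
    (by simp) (by simp) (by simp) ?_
  intro u v huv _
  have h : (Γr k G H).Adj (f u) (f v) := f.toHom.map_adj huv
  exact h.2

end Pool.Agent.Helper39.KT

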